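import Mathlib

/-!
Four-element sets in circuits or cocircuits of paving matroids.
-/

set_option autoImplicit false

namespace Pool.Agent.Results.MP_16b4d3_co.Paving

open Set Matroid

variable {α : Type*}

/-- Property (⋆): every four-element subset of the ground set lies in a circuit or in a
cocircuit. -/
def Star (M : Matroid α) : Prop :=
  ∀ X : Set α, X ⊆ M.E → X.ncard = 4 → ∃ C : Set α, X ⊆ C ∧ (M.IsCircuit C ∨ M.IsCocircuit C)

/-- A matroid is paving if every circuit has at least as many elements as the rank. -/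
def IsPaving (M : Matroid α) : Prop := ∀ C : Set α, M.IsCircuit C → M.eRank ≤ C.encard

section aux

variable {M : Matroid α} {r : ℕ}

lemma small_indep (hpav : IsPaving M) (hr : M.eRank = r) {I : Finset α}
    (hI : (I : Set α) ⊆ M.E) (hc : I.card < r) : M.Indep (I : Set α) := by
  by_contra hcon
  have hdep : M.Dep (I : Set α) := ⟨hcon, hI⟩
  obtain ⟨C, hCI, hC⟩ := hdep.exists_isCircuit_subset
  have h1 := hpav C hC
  have h2 : C.encard ≤ (I : Set α).encard := Set.encard_le_encard hCI
  rw [hr] at h1
  rw [Set.encard_coe_eq_coe_finsetCard] at h2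
  have h3 : (r : ℕ∞) ≤ I.card := h1.trans h2
  have h4 : r ≤ I.card := by exact_mod_cast h3
  omega

lemma circuit_of_dep (hpav : IsPaving M) (hr : M.eRank = r) {Z : Finset α}
    (hZ : M.Dep (Z : Set α)) (hc : Z.card ≤ r) : M.IsCircuit (Z : Set α) := by
  obtain ⟨C, hCI, hC⟩ := hZ.exists_isCircuit_subset
  have h1 := hpav C hC
  rw [hr] at h1
  have h2 : (Z : Set α).encard ≤ C.encard := by
    rw [Set.encard_coe_eq_coe_finsetCard]
    exact le_trans (by exact_mod_cast hc) h1
  have h3 : C = (Z : Set α) := Z.finite_toSet.eq_of_subset_of_encard_le' hCI h2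
  rw [← h3]; exact hC

lemma dep_of_subset_closure {A S : Finset α} (hA : (A : Set α) ⊆ M.closure (S : Set α))
    (hc : S.card < A.card) : M.Dep (A : Set α) := by
  refine ⟨fun hI => ?_, hA.trans (M.closure_subset_ground _)⟩
  have h1 : (A : Set α).encard ≤ M.eRk (M.closure (S : Set α)) := hI.encard_le_eRk_of_subset hA
  rw [eRk_closure_eq] at h1
  have h2 : M.eRk (S : Set α) ≤ (S : Set α).encard := M.eRk_le_encard _
  rw [Set.encard_coe_eq_coe_finsetCard] at h1 h2
  have h3 : A.card ≤ S.card := by exact_mod_cast h1.trans h2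
  omega

lemma closure_eq_of {A S : Finset α} (hA : (A : Set α) ⊆ M.closure (S : Set α))
    (hI : M.Indep (A : Set α)) (hc : S.card ≤ A.card) :
    M.closure (A : Set α) = M.closure (S : Set α) := by
  have h1 : M.eRk (M.closure (S : Set α)) ≤ M.eRk (A : Set α) := by
    rw [eRk_closure_eq, hI.eRk_eq_encard, Set.encard_coe_eq_coe_finsetCard]
    refine (M.eRk_le_encard _).trans ?_
    rw [Set.encard_coe_eq_coe_finsetCard]; exact_mod_cast hc
  have h2 := hI.isBasis_of_eRk_ge A.finite_toSet hA h1
  rw [h2.closure_eq_closure, closure_closure]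

end aux

section main

variable {M : Matroid α} {r : ℕ} [DecidableEq α] {X : Finset α}

/-- existence: for every `(r-3)`-set `W` disjoint from `X`, `W ∪ (X \ z)` is a circuit. -/
lemma existsW (hpav : IsPaving M) (hr : M.eRank = r) (hXE : (X : Set α) ⊆ M.E)
    (hX4 : X.card = 4) (hXc : ∀ C, M.IsCircuit C → ¬ (X : Set α) ⊆ C)
    {W : Finset α} (hWE : (W : Set α) ⊆ M.E) (hWX : Disjoint W X) (hWc : W.card + 3 = r) :
    ∃ z ∈ X, M.IsCircuit ((W ∪ X.erase z : Finset α) : Set α) := by
  have hcard : (W ∪ X).card = r + 1 := by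
    rw [Finset.card_union_of_disjoint hWX]; omega
  have hdep : M.Dep ((W ∪ X : Finset α) : Set α) := by
    refine ⟨fun hI => ?_, by rw [Finset.coe_union]; exact Set.union_subset hWE hXE⟩
    have h1 := hI.encard_le_eRank
    rw [Set.encard_coe_eq_coe_finsetCard, hcard, hr] at h1
    have : r + 1 ≤ r := by exact_mod_cast h1
    omega
  obtain ⟨C, hCZ, hC⟩ := hdep.exists_isCircuit_subset
  have h1 := hXc C hC
  rw [Set.not_subset] at h1
  obtain ⟨z, hzX, hzC⟩ := h1
  have hzX' : z ∈ X := by exact_mod_cast hzX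
  refine ⟨z, hzX', ?_⟩
  have hsub : C ⊆ ((W ∪ X.erase z : Finset α) : Set α) := by
    intro x hx
    have hx1 := hCZ hx
    simp only [Finset.coe_union, Set.mem_union, Finset.mem_coe, Finset.mem_erase] at hx1 ⊢
    rcases hx1 with h | h
    · exact Or.inl h
    · refine Or.inr ⟨?_, h⟩
      rintro rfl; exact hzC hx
  have hcard2 : (W ∪ X.erase z).card = r := by
    rw [Finset.card_union_of_disjoint (hWX.mono_right (Finset.erase_subset _ _)),
      Finset.card_erase_of_mem hzX']; omega
  have h2 := hpav C hC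
  rw [hr] at h2
  have h3 : C = ((W ∪ X.erase z : Finset α) : Set α) := by
    refine (Finset.finite_toSet _).eq_of_subset_of_encard_le' hsub ?_
    rw [Set.encard_coe_eq_coe_finsetCard, hcard2]; exact h2
  rw [← h3]; exact hC

lemma uniqueW (hpav : IsPaving M) (hr : M.eRank = r) (hXE : (X : Set α) ⊆ M.E)
    (hX4 : X.card = 4) (hXc : ∀ C, M.IsCircuit C → ¬ (X : Set α) ⊆ C)
    {W : Finset α} (hWE : (W : Set α) ⊆ M.E) (hWX : Disjoint W X) (hWc : W.card + 3 = r)
    (hr4 : 4 ≤ r) {z z' : α} (hz : z ∈ X) (hz' : z' ∈ X)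
    (h : M.IsCircuit ((W ∪ X.erase z : Finset α) : Set α))
    (h' : M.IsCircuit ((W ∪ X.erase z' : Finset α) : Set α)) : z = z' := by
  by_contra hne
  have hzW : z ∉ W := fun hh => (Finset.disjoint_left.1 hWX hh hz)
  have hz'W : z' ∉ W := fun hh => (Finset.disjoint_left.1 hWX hh hz')
  set T : Finset α := W ∪ (X.erase z).erase z' with hT
  have hTc : T.card + 1 = r := by
    rw [hT, Finset.card_union_of_disjoint
      (hWX.mono_right ((Finset.erase_subset _ _).trans (Finset.erase_subset _ _))),
      Finset.card_erase_of_mem (Finset.mem_erase.2 ⟨fun h => hne h.symm, hz'⟩),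
      Finset.card_erase_of_mem hz]; omega
  have e1 : ((W ∪ X.erase z : Finset α) : Set α) \ {z'} = (T : Set α) := by
    ext x
    simp only [hT, Finset.coe_union, Finset.coe_erase, Set.mem_sdiff, Set.mem_union,
      Finset.mem_coe, Set.mem_singleton_iff]
    constructor
    · rintro ⟨h1 | h1, h2⟩
      · exact Or.inl h1
      · exact Or.inr ⟨h1, h2⟩
    · rintro (h1 | h1)
      · exact ⟨Or.inl h1, fun hh => hz'W (hh ▸ h1)⟩
      · exact ⟨Or.inr h1.1, h1.2⟩
  have e2 : ((W ∪ X.erase z' : Finset α) : Set α) \ {z} = (T : Set α) := by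
    ext x
    simp only [hT, Finset.coe_union, Finset.coe_erase, Set.mem_sdiff, Set.mem_union,
      Finset.mem_coe, Set.mem_singleton_iff]
    constructor
    · rintro ⟨h1 | h1, h2⟩
      · exact Or.inl h1
      · exact Or.inr ⟨⟨h1.1, h2⟩, h1.2⟩
    · rintro (h1 | h1)
      · exact ⟨Or.inl h1, fun hh => hzW (hh ▸ h1)⟩
      · exact ⟨Or.inr ⟨h1.1.1, h1.2⟩, h1.1.2⟩
  have hz'cl : z' ∈ M.closure (T : Set α) := by
    rw [← e1]
    refine h.mem_closure_sdiff_singleton_of_mem ?_
    simp only [Finset.coe_union, Set.mem_union, Finset.mem_coe, Finset.mem_erase]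
    exact Or.inr ⟨fun h => hne h.symm, hz'⟩
  have hzcl : z ∈ M.closure (T : Set α) := by
    rw [← e2]
    refine h'.mem_closure_sdiff_singleton_of_mem ?_
    simp only [Finset.coe_union, Set.mem_union, Finset.mem_coe, Finset.mem_erase]
    exact Or.inr ⟨hne, hz⟩
  have hTE : (T : Set α) ⊆ M.E := by
    intro x hx
    simp only [hT, Finset.coe_union, Finset.coe_erase, Set.mem_sdiff, Set.mem_union,
      Finset.mem_coe, Set.mem_singleton_iff] at hx
    rcases hx with hx | hx
    · exact hWE (by exact_mod_cast hx)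
    · exact hXE (by exact_mod_cast hx.1.1)
  have hTcl := M.subset_closure (T : Set α) hTE
  -- W ∪ X ⊆ closure T
  have hWXcl : ((W ∪ X : Finset α) : Set α) ⊆ M.closure (T : Set α) := by
    intro x hx
    simp only [Finset.coe_union, Set.mem_union, Finset.mem_coe] at hx
    rcases hx with hx | hx
    · apply hTcl
      simp only [hT, Finset.coe_union, Set.mem_union, Finset.mem_coe]; exact Or.inl hx
    · by_cases hxz : x = z
      · rw [hxz]; exact hzcl
      by_cases hxz' : x = z'
      · rw [hxz']; exact hz'cl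
      apply hTcl
      simp only [hT, Finset.coe_union, Set.mem_union, Finset.mem_coe, Finset.mem_erase]
      exact Or.inr ⟨hxz', hxz, hx⟩
  have hWne : W.Nonempty := by
    rw [← Finset.card_pos]; omega
  obtain ⟨w, hw⟩ := hWne
  have hYc : (W.erase w ∪ X).card = r := by
    rw [Finset.card_union_of_disjoint (hWX.mono_left (Finset.erase_subset _ _)),
      Finset.card_erase_of_mem hw]; omega
  have hYcl : ((W.erase w ∪ X : Finset α) : Set α) ⊆ M.closure (T : Set α) := by
    refine Set.Subset.trans ?_ hWXcl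
    exact_mod_cast Finset.union_subset_union_left (Finset.erase_subset _ _)
  have hYdep : M.Dep ((W.erase w ∪ X : Finset α) : Set α) :=
    dep_of_subset_closure hYcl (by omega)
  have hYcirc := circuit_of_dep hpav hr hYdep hYc.le
  refine hXc _ hYcirc ?_
  exact_mod_cast Finset.subset_union_right

/-- any other `(r-3)`-set in the same hyperplane gives a circuit with the same `z`. -/
lemma inH (hpav : IsPaving M) (hr : M.eRank = r) (hX4 : X.card = 4)
    {W W' : Finset α} (hWX : Disjoint W X) (hWc : W.card + 3 = r) {z : α} (hz : z ∈ X)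
    (h : M.IsCircuit ((W ∪ X.erase z : Finset α) : Set α))
    (hW'X : Disjoint W' X) (hW'c : W'.card + 3 = r)
    (hW' : (W' : Set α) ⊆ M.closure ((W ∪ X.erase z : Finset α) : Set α)) :
    M.IsCircuit ((W' ∪ X.erase z : Finset α) : Set α) := by
  have hc1 : (W ∪ X.erase z).card = r := by
    rw [Finset.card_union_of_disjoint (hWX.mono_right (Finset.erase_subset _ _)),
      Finset.card_erase_of_mem hz]; omega
  have hc2 : (W' ∪ X.erase z).card = r := by
    rw [Finset.card_union_of_disjoint (hW'X.mono_right (Finset.erase_subset _ _)),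
      Finset.card_erase_of_mem hz]; omega
  have hsub : ((W' ∪ X.erase z : Finset α) : Set α) ⊆
      M.closure ((W ∪ X.erase z : Finset α) : Set α) := by
    have := M.subset_closure _ h.subset_ground
    rw [Finset.coe_union]
    refine Set.union_subset hW' (Set.Subset.trans ?_ this)
    rw [Finset.coe_union]; exact Set.subset_union_right
  have hdep : M.Dep ((W' ∪ X.erase z : Finset α) : Set α) := by
    refine ⟨fun hI => ?_, hsub.trans (M.closure_subset_ground _)⟩
    have h1 := hI.encard_le_eRk_of_subset hsub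
    rw [eRk_closure_eq, Set.encard_coe_eq_coe_finsetCard, hc2] at h1
    have h2 := h.eRk_add_one_eq
    rw [Set.encard_coe_eq_coe_finsetCard, hc1] at h2
    have h3 : (r : ℕ∞) + 1 ≤ r := by
      calc (r : ℕ∞) + 1 ≤ M.eRk ((W ∪ X.erase z : Finset α) : Set α) + 1 := by gcongr
        _ = r := h2
    have : r + 1 ≤ r := by exact_mod_cast h3
    omega
  exact circuit_of_dep hpav hr hdep hc2.le

/-- the key step. -/
lemma inj_step (hpav : IsPaving M) (hr : M.eRank = r) (hXE : (X : Set α) ⊆ M.E)
    (hX4 : X.card = 4) (hXc : ∀ C, M.IsCircuit C → ¬ (X : Set α) ⊆ C)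
    (hr4 : 4 ≤ r)
    {W : Finset α} (hWX : Disjoint W X) (hWc : W.card + 3 = r)
    {z : α} (hz : z ∈ X) (h : M.IsCircuit ((W ∪ X.erase z : Finset α) : Set α))
    {y : α} (hyX : y ∉ X) (hy : y ∉ M.closure ((W ∪ X.erase z : Finset α) : Set α))
    {T : Finset α} {b₁ b₂ : α} (hb : b₁ ≠ b₂) (hb₁T : b₁ ∉ T) (hb₂T : b₂ ∉ T)
    (hTc : T.card + 5 = r) (hTX : Disjoint T X) (hb₁X : b₁ ∉ X) (hb₂X : b₂ ∉ X)
    (hTH : (T : Set α) ⊆ M.closure ((W ∪ X.erase z : Finset α) : Set α))
    (hb₁ : b₁ ∈ M.closure ((W ∪ X.erase z : Finset α) : Set α))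
    (hb₂ : b₂ ∈ M.closure ((W ∪ X.erase z : Finset α) : Set α))
    {z' : α} (hz' : z' ∈ X)
    (h₁ : M.IsCircuit ((insert y (insert b₁ T) ∪ X.erase z' : Finset α) : Set α))
    (h₂ : M.IsCircuit ((insert y (insert b₂ T) ∪ X.erase z' : Finset α) : Set α)) : False := by
  set H := M.closure ((W ∪ X.erase z : Finset α) : Set α) with hH
  have hCH : ((W ∪ X.erase z : Finset α) : Set α) ⊆ H := M.subset_closure _ h.subset_ground
  have hXH : ((X.erase z : Finset α) : Set α) ⊆ H := by
    refine Set.Subset.trans ?_ hCH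
    rw [Finset.coe_union]; exact Set.subset_union_right
  have hyb₁ : y ≠ b₁ := fun hh => hy (hh ▸ hb₁)
  have hyb₂ : y ≠ b₂ := fun hh => hy (hh ▸ hb₂)
  have hyT : y ∉ T := fun hh => hy (hTH (by exact_mod_cast hh))
  -- z' ≠ z
  have hzz' : z ≠ z' := by
    rintro rfl
    apply hy
    have h3 := h₁.mem_closure_sdiff_singleton_of_mem (e := y) (by
      simp)
    refine (M.closure_subset_closure ?_).trans (by rw [hH, closure_closure]) h3
    intro x hx
    simp only [Finset.coe_union, Finset.coe_insert, Set.mem_sdiff, Set.mem_union,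
      Set.mem_insert_iff, Finset.mem_coe, Set.mem_singleton_iff] at hx
    rcases hx with ⟨(hx | hx | hx) | hx, hxy⟩
    · exact absurd hx hxy
    · rw [hx]; exact hb₁
    · exact hTH (by exact_mod_cast hx)
    · exact hXH (by exact_mod_cast hx)
  set T' : Finset α := insert y T ∪ X.erase z' with hT'
  have hdisj : Disjoint (insert y T) (X.erase z') := by
    refine Finset.disjoint_of_subset_right (Finset.erase_subset _ _) ?_
    rw [Finset.disjoint_insert_left]; exact ⟨hyX, hTX⟩
  have hT'c : T'.card + 1 = r := by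
    rw [hT', Finset.card_union_of_disjoint hdisj, Finset.card_insert_of_notMem hyT,
      Finset.card_erase_of_mem hz']; omega
  have key : ∀ b, b ∉ T → b ∉ X → b ≠ y →
      M.IsCircuit ((insert y (insert b T) ∪ X.erase z' : Finset α) : Set α) →
      b ∈ M.closure (T' : Set α) := by
    intro b hbT hbX hby hc
    have e : ((insert y (insert b T) ∪ X.erase z' : Finset α) : Set α) \ {b} = (T' : Set α) := by
      ext x
      simp only [hT', Finset.coe_union, Finset.coe_insert, Finset.coe_erase, Set.mem_sdiff,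
        Set.mem_union, Set.mem_insert_iff, Finset.mem_coe, Set.mem_singleton_iff]
      constructor
      · rintro ⟨(hx | hx | hx) | hx, hxb⟩
        · exact Or.inl (Or.inl hx)
        · exact absurd hx hxb
        · exact Or.inl (Or.inr hx)
        · exact Or.inr hx
      · rintro ((hx | hx) | hx)
        · exact ⟨Or.inl (Or.inl hx), fun hh => hby (hh ▸ hx)⟩
        · exact ⟨Or.inl (Or.inr (Or.inr hx)), fun hh => hbT (hh ▸ hx)⟩
        · exact ⟨Or.inr hx, fun hh => hbX (hh ▸ hx.1)⟩
    rw [← e]
    refine hc.mem_closure_sdiff_singleton_of_mem ?_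
    simp
  have hb₁cl := key b₁ hb₁T hb₁X (fun hh => hyb₁ hh.symm) h₁
  have hb₂cl := key b₂ hb₂T hb₂X (fun hh => hyb₂ hh.symm) h₂
  set V : Finset α := insert b₁ (insert b₂ T) with hV
  have hVX : Disjoint V X := by
    rw [hV, Finset.disjoint_insert_left, Finset.disjoint_insert_left]
    exact ⟨hb₁X, hb₂X, hTX⟩
  have hVc : V.card + 3 = r := by
    rw [hV, Finset.card_insert_of_notMem (by simp [hb, hb₁T]), Finset.card_insert_of_notMem hb₂T]
    omega
  have hVH : (V : Set α) ⊆ H := by
    intro x hx
    simp only [hV, Finset.coe_insert, Set.mem_insert_iff, Finset.mem_coe] at hx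
    rcases hx with rfl | rfl | hx
    · exact hb₁
    · exact hb₂
    · exact hTH (by exact_mod_cast hx)
  have hc1 := inH hpav hr hX4 hWX hWc hz h hVX hVc hVH
  have hT'E : (T' : Set α) ⊆ M.E := by
    refine Set.Subset.trans ?_ h₁.subset_ground
    intro x hx
    simp only [hT', Finset.coe_union, Finset.coe_insert, Finset.coe_erase,
        Set.mem_union, Set.mem_insert_iff, Finset.mem_coe] at hx ⊢
    rcases hx with (hx | hx) | hx
    · exact Or.inl (Or.inl hx)
    · exact Or.inl (Or.inr (Or.inr hx))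
    · exact Or.inr hx
  have hT'cl := M.subset_closure (T' : Set α) hT'E
  have hsub : ((V ∪ X.erase z' : Finset α) : Set α) ⊆ M.closure (T' : Set α) := by
    intro x hx
    simp only [hV, Finset.coe_union, Finset.coe_insert, Set.mem_union, Set.mem_insert_iff,
      Finset.mem_coe] at hx
    rcases hx with (rfl | rfl | hx) | hx
    · exact hb₁cl
    · exact hb₂cl
    · apply hT'cl; simp only [hT', Finset.coe_union, Finset.coe_insert, Set.mem_union,
        Set.mem_insert_iff, Finset.mem_coe]; exact Or.inl (Or.inr hx)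
    · apply hT'cl; simp only [hT', Finset.coe_union, Finset.coe_insert, Set.mem_union,
        Set.mem_insert_iff, Finset.mem_coe]; exact Or.inr hx
  have hcard : (V ∪ X.erase z').card = r := by
    rw [Finset.card_union_of_disjoint (hVX.mono_right (Finset.erase_subset _ _)),
      Finset.card_erase_of_mem hz']; omega
  have hdep := dep_of_subset_closure hsub (by omega)
  have hc2 := circuit_of_dep hpav hr hdep hcard.le
  have hVE : (V : Set α) ⊆ M.E := hVH.trans (M.closure_subset_ground _)
  exact hzz' (uniqueW hpav hr hXE hX4 hXc hVE hVX hVc hr4 hz hz' hc1 hc2)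

/-- If `z ∈ X` is not a coloop there is an element off the hyperplane. -/
lemma exists_y (hpav : IsPaving M) (hr : M.eRank = r) (hXE : (X : Set α) ⊆ M.E)
    (hX4 : X.card = 4) (hXc : ∀ C, M.IsCircuit C → ¬ (X : Set α) ⊆ C)
    (hr4 : 4 ≤ r) {W : Finset α} (hWX : Disjoint W X) (hWc : W.card + 3 = r)
    {z : α} (hz : z ∈ X) (h : M.IsCircuit ((W ∪ X.erase z : Finset α) : Set α))
    (hcol : ¬ M.IsColoop z) :
    ∃ y ∈ M.E, y ∉ X ∧ y ∉ M.closure ((W ∪ X.erase z : Finset α) : Set α) := by
  by_contra hcon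
  push Not at hcon
  have hzE : z ∈ M.E := hXE (by exact_mod_cast hz)
  set H := M.closure ((W ∪ X.erase z : Finset α) : Set α) with hH
  have hCH : ((W ∪ X.erase z : Finset α) : Set α) ⊆ H := M.subset_closure _ h.subset_ground
  have hsub : M.E \ {z} ⊆ H := by
    intro x hx
    by_cases hxX : x ∈ X
    · apply hCH
      have hxz : x ≠ z := hx.2
      simp [hxz, hxX]
    · exact hcon x hx.1 hxX
  have hzH : z ∈ H := by
    by_contra hzH
    apply hcol
    rw [isColoop_iff_notMem_closure_compl hzE]
    intro hh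
    apply hzH
    have := M.closure_subset_closure hsub hh
    rwa [hH, closure_closure] at this
  -- then X ⊆ H
  have hWne : W.Nonempty := by
    rw [← Finset.card_pos]; omega
  obtain ⟨w, hw⟩ := hWne
  have hYc : (W.erase w ∪ X).card = r := by
    rw [Finset.card_union_of_disjoint (hWX.mono_left (Finset.erase_subset _ _)),
      Finset.card_erase_of_mem hw]; omega
  have hYsub : ((W.erase w ∪ X : Finset α) : Set α) ⊆ H := by
    intro x hx
    simp only [Finset.coe_union, Finset.coe_erase, Set.mem_union, Set.mem_sdiff, Finset.mem_coe,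
      Set.mem_singleton_iff] at hx
    by_cases hxz : x = z
    · rw [hxz]; exact hzH
    apply hCH
    rcases hx with hx | hx
    · simp [hx.1]
    · simp [hxz, hx]
  have hc1 : (W ∪ X.erase z).card = r := by
    rw [Finset.card_union_of_disjoint (hWX.mono_right (Finset.erase_subset _ _)),
      Finset.card_erase_of_mem hz]; omega
  have hdep : M.Dep ((W.erase w ∪ X : Finset α) : Set α) := by
    refine ⟨fun hI => ?_, hYsub.trans (M.closure_subset_ground _)⟩
    have h1 := hI.encard_le_eRk_of_subset hYsub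
    rw [hH, eRk_closure_eq, Set.encard_coe_eq_coe_finsetCard, hYc] at h1
    have h2 := h.eRk_add_one_eq
    rw [Set.encard_coe_eq_coe_finsetCard, hc1] at h2
    have h3 : (r : ℕ∞) + 1 ≤ r := by
      calc (r : ℕ∞) + 1 ≤ M.eRk ((W ∪ X.erase z : Finset α) : Set α) + 1 := by gcongr
        _ = r := h2
    have : r + 1 ≤ r := by exact_mod_cast h3
    omega
  have hcirc := circuit_of_dep hpav hr hdep hYc.le
  refine hXc _ hcirc ?_
  exact_mod_cast Finset.subset_union_right

/-- Large rank: `r ≥ 7`. -/
lemma large_rank (hpav : IsPaving M) (hr : M.eRank = r) (hXE : (X : Set α) ⊆ M.E)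
    (hX4 : X.card = 4) (hXc : ∀ C, M.IsCircuit C → ¬ (X : Set α) ⊆ C)
    (hr7 : 7 ≤ r) (hcol : ∀ e, ¬ M.IsColoop e)
    {W : Finset α} (hWE : (W : Set α) ⊆ M.E) (hWX : Disjoint W X) (hWc : W.card + 3 = r) :
    False := by
  obtain ⟨z, hz, h⟩ := existsW hpav hr hXE hX4 hXc hWE hWX hWc
  obtain ⟨y, hyE, hyX, hyH⟩ := exists_y hpav hr hXE hX4 hXc (by omega) hWX hWc hz h (hcol z)
  set H := M.closure ((W ∪ X.erase z : Finset α) : Set α) with hH
  have hCH : ((W ∪ X.erase z : Finset α) : Set α) ⊆ H := M.subset_closure _ h.subset_ground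
  have hWH : (W : Set α) ⊆ H := by
    refine Set.Subset.trans ?_ hCH
    rw [Finset.coe_union]; exact Set.subset_union_left
  have hXH : ((X.erase z : Finset α) : Set α) ⊆ H := by
    refine Set.Subset.trans ?_ hCH
    rw [Finset.coe_union]; exact Set.subset_union_right
  have hyW : y ∉ W := fun hh => hyH (hWH (by exact_mod_cast hh))
  have hex : ∀ w ∈ W, ∃ z' ∈ X,
      M.IsCircuit ((insert y (W.erase w) ∪ X.erase z' : Finset α) : Set α) := by
    intro w hw
    have hc : (insert y (W.erase w)).card + 3 = r := by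
      rw [Finset.card_insert_of_notMem (fun hh => hyW (Finset.mem_of_mem_erase hh)),
        Finset.card_erase_of_mem hw]
      have : 0 < W.card := Finset.card_pos.2 ⟨w, hw⟩
      omega
    refine existsW hpav hr hXE hX4 hXc ?_ ?_ hc
    · intro x hx
      simp only [Finset.coe_insert, Finset.coe_erase, Set.mem_insert_iff, Set.mem_sdiff,
        Finset.mem_coe, Set.mem_singleton_iff] at hx
      rcases hx with rfl | hx
      · exact hyE
      · exact hWE (by exact_mod_cast hx.1)
    · rw [Finset.disjoint_insert_left]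
      exact ⟨hyX, hWX.mono_left (Finset.erase_subset _ _)⟩
  choose! f hfX hf using hex
  have hmaps : ∀ w ∈ W, f w ∈ X.erase z := by
    intro w hw
    rw [Finset.mem_erase]
    refine ⟨fun hfz => ?_, hfX w hw⟩
    apply hyH
    have h3 := (hf w hw).mem_closure_sdiff_singleton_of_mem (e := y) (by simp)
    refine (M.closure_subset_closure ?_).trans (by rw [hH, closure_closure]) h3
    intro x hx
    simp only [Finset.coe_union, Finset.coe_insert, Set.mem_sdiff, Set.mem_union,
      Set.mem_insert_iff, Finset.mem_coe, Set.mem_singleton_iff, hfz] at hx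
    rcases hx with ⟨(hx | hx) | hx, hxy⟩
    · exact absurd hx hxy
    · exact hWH (by exact_mod_cast (Finset.mem_of_mem_erase hx))
    · exact hXH (by exact_mod_cast hx)
  have hcard : (X.erase z).card < W.card := by
    rw [Finset.card_erase_of_mem hz]; omega
  obtain ⟨w₁, hw₁, w₂, hw₂, hne, heq⟩ :=
    Finset.exists_ne_map_eq_of_card_lt_of_maps_to hcard hmaps
  have hw₂' : w₂ ∈ W.erase w₁ := Finset.mem_erase.2 ⟨fun h => hne h.symm, hw₂⟩
  have hw₁' : w₁ ∈ W.erase w₂ := Finset.mem_erase.2 ⟨hne, hw₁⟩
  have e1 : insert w₂ ((W.erase w₁).erase w₂) = W.erase w₁ := Finset.insert_erase hw₂'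
  have e2 : insert w₁ ((W.erase w₁).erase w₂) = W.erase w₂ := by
    rw [Finset.erase_right_comm]; exact Finset.insert_erase hw₁'
  have hTW : (W.erase w₁).erase w₂ ⊆ W := (Finset.erase_subset _ _).trans (Finset.erase_subset _ _)
  refine inj_step (T := (W.erase w₁).erase w₂) (b₁ := w₂) (b₂ := w₁) hpav hr hXE hX4 hXc
    (by omega) hWX hWc hz h hyX hyH (fun h => hne h.symm) (by simp) (by simp) ?_
    (hWX.mono_left hTW) ?_ ?_ ?_ ?_ ?_ (hfX w₁ hw₁) ?_ ?_
  · rw [Finset.card_erase_of_mem hw₂', Finset.card_erase_of_mem hw₁]; omega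
  · exact fun hh => Finset.disjoint_left.1 hWX hw₂ hh
  · exact fun hh => Finset.disjoint_left.1 hWX hw₁ hh
  · refine Set.Subset.trans ?_ hWH; exact_mod_cast hTW
  · exact hWH (by exact_mod_cast hw₂)
  · exact hWH (by exact_mod_cast hw₁)
  · rw [e1]; exact hf w₁ hw₁
  · rw [e2, heq]; exact hf w₂ hw₂

/-- Block bound, for `r ≥ 5`: the hyperplane `H` has at most `r - 2` elements outside `X`. -/
lemma block_bound (hpav : IsPaving M) (hr : M.eRank = r) (hXE : (X : Set α) ⊆ M.E)
    (hX4 : X.card = 4) (hXc : ∀ C, M.IsCircuit C → ¬ (X : Set α) ⊆ C)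
    (hr5 : 5 ≤ r) (hcol : ∀ e, ¬ M.IsColoop e)
    {W : Finset α} (hWX : Disjoint W X) (hWc : W.card + 3 = r)
    {z : α} (hz : z ∈ X) (h : M.IsCircuit ((W ∪ X.erase z : Finset α) : Set α))
    {B : Finset α} (hBX : Disjoint B X) (hBc : r ≤ B.card + 1)
    (hBH : (B : Set α) ⊆ M.closure ((W ∪ X.erase z : Finset α) : Set α)) : False := by
  obtain ⟨y, hyE, hyX, hyH⟩ := exists_y hpav hr hXE hX4 hXc (by omega) hWX hWc hz h (hcol z)
  set H := M.closure ((W ∪ X.erase z : Finset α) : Set α) with hH
  have hCH : ((W ∪ X.erase z : Finset α) : Set α) ⊆ H := M.subset_closure _ h.subset_ground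
  have hXH : ((X.erase z : Finset α) : Set α) ⊆ H := by
    refine Set.Subset.trans ?_ hCH
    rw [Finset.coe_union]; exact Set.subset_union_right
  have hyB : y ∉ B := fun hh => hyH (hBH (by exact_mod_cast hh))
  obtain ⟨T, hTB, hTc⟩ := Finset.exists_subset_card_eq (s := B) (n := r - 5) (by omega)
  have hTX : Disjoint T X := hBX.mono_left hTB
  have hTH : (T : Set α) ⊆ H := Set.Subset.trans (by exact_mod_cast hTB) hBH
  have hex : ∀ b ∈ B \ T, ∃ z' ∈ X,
      M.IsCircuit ((insert y (insert b T) ∪ X.erase z' : Finset α) : Set α) := by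
    intro b hb
    rw [Finset.mem_sdiff] at hb
    have hc : (insert y (insert b T)).card + 3 = r := by
      rw [Finset.card_insert_of_notMem, Finset.card_insert_of_notMem hb.2]
      · omega
      · rw [Finset.mem_insert]
        rintro (hh | hh)
        · exact hyB (hh ▸ hb.1)
        · exact hyB (hTB hh)
    refine existsW hpav hr hXE hX4 hXc ?_ ?_ hc
    · intro x hx
      simp only [Finset.coe_insert, Set.mem_insert_iff, Finset.mem_coe] at hx
      rcases hx with rfl | rfl | hx
      · exact hyE
      · exact M.closure_subset_ground _ (hBH (by exact_mod_cast hb.1))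
      · exact M.closure_subset_ground _ (hTH (by exact_mod_cast hx))
    · rw [Finset.disjoint_insert_left, Finset.disjoint_insert_left]
      exact ⟨hyX, fun hh => Finset.disjoint_left.1 hBX hb.1 hh, hTX⟩
  choose! f hfX hf using hex
  have hmaps : ∀ b ∈ B \ T, f b ∈ X.erase z := by
    intro b hb
    rw [Finset.mem_erase]
    refine ⟨fun hfz => ?_, hfX b hb⟩
    apply hyH
    have h3 := (hf b hb).mem_closure_sdiff_singleton_of_mem (e := y) (by simp)
    refine (M.closure_subset_closure ?_).trans (by rw [hH, closure_closure]) h3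
    intro x hx
    simp only [Finset.coe_union, Finset.coe_insert, Set.mem_sdiff, Set.mem_union,
      Set.mem_insert_iff, Finset.mem_coe, Set.mem_singleton_iff, hfz] at hx
    rcases hx with ⟨(hx | hx | hx) | hx, hxy⟩
    · exact absurd hx hxy
    · rw [hx]; exact hBH (by exact_mod_cast (Finset.mem_sdiff.1 hb).1)
    · exact hTH (by exact_mod_cast hx)
    · exact hXH (by exact_mod_cast hx)
  have hcard : (X.erase z).card < (B \ T).card := by
    rw [Finset.card_erase_of_mem hz, Finset.card_sdiff_of_subset hTB]; omega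
  obtain ⟨b₁, hb₁, b₂, hb₂, hne, heq⟩ :=
    Finset.exists_ne_map_eq_of_card_lt_of_maps_to hcard hmaps
  have hb₁' := Finset.mem_sdiff.1 hb₁
  have hb₂' := Finset.mem_sdiff.1 hb₂
  refine inj_step (T := T) (b₁ := b₁) (b₂ := b₂) hpav hr hXE hX4 hXc
    (by omega) hWX hWc hz h hyX hyH hne hb₁'.2 hb₂'.2 (by omega)
    hTX ?_ ?_ hTH ?_ ?_ (hfX b₁ hb₁) (hf b₁ hb₁) ?_
  · exact fun hh => Finset.disjoint_left.1 hBX hb₁'.1 hh
  · exact fun hh => Finset.disjoint_left.1 hBX hb₂'.1 hh
  · exact hBH (by exact_mod_cast hb₁'.1)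
  · exact hBH (by exact_mod_cast hb₂'.1)
  · rw [heq]; exact hf b₂ hb₂

/-- Pigeonhole: with at least `r + 9` elements, one hyperplane of the special shape contains
`r - 1` elements outside `X`. -/
lemma exists_big_block (hpav : IsPaving M) (hr : M.eRank = r) (hXE : (X : Set α) ⊆ M.E)
    (hX4 : X.card = 4) (hXc : ∀ C, M.IsCircuit C → ¬ (X : Set α) ⊆ C)
    (hr4 : 4 ≤ r) {E : Finset α} (hE : (E : Set α) = M.E) (hn : r + 9 ≤ E.card) :
    ∃ W : Finset α, ∃ z ∈ X, ∃ B : Finset α, Disjoint W X ∧ W.card + 3 = r ∧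
      M.IsCircuit ((W ∪ X.erase z : Finset α) : Set α) ∧ Disjoint B X ∧ B.card + 1 = r ∧
      (B : Set α) ⊆ M.closure ((W ∪ X.erase z : Finset α) : Set α) := by
  have hXE' : X ⊆ E := by
    rw [← hE] at hXE; exact_mod_cast hXE
  have hc1 : (E \ X).card + 4 = E.card := by
    rw [Finset.card_sdiff_of_subset hXE']
    have := Finset.card_le_card hXE'
    omega
  obtain ⟨U, hUE, hUc⟩ := Finset.exists_subset_card_eq (s := E \ X) (n := r - 4) (by omega)
  have hUX : Disjoint U X := by
    rw [Finset.disjoint_left]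
    intro x hx
    exact (Finset.mem_sdiff.1 (hUE hx)).2
  have hUE' : (U : Set α) ⊆ M.E := by
    intro x hx
    rw [← hE]
    exact_mod_cast (Finset.mem_sdiff.1 (hUE (by exact_mod_cast hx))).1
  have hex : ∀ e ∈ (E \ X) \ U, ∃ z ∈ X,
      M.IsCircuit ((insert e U ∪ X.erase z : Finset α) : Set α) := by
    intro e he
    rw [Finset.mem_sdiff, Finset.mem_sdiff] at he
    refine existsW hpav hr hXE hX4 hXc ?_ ?_ ?_
    · intro x hx
      simp only [Finset.coe_insert, Set.mem_insert_iff, Finset.mem_coe] at hx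
      rcases hx with rfl | hx
      · rw [← hE]; exact_mod_cast he.1.1
      · exact hUE' (by exact_mod_cast hx)
    · rw [Finset.disjoint_insert_left]; exact ⟨he.1.2, hUX⟩
    · rw [Finset.card_insert_of_notMem he.2]; omega
  choose! f hfX hf using hex
  have hcard : X.card * 2 < ((E \ X) \ U).card := by
    rw [Finset.card_sdiff_of_subset hUE]; omega
  obtain ⟨z, hz, hfib⟩ :=
    Finset.exists_lt_card_fiber_of_mul_lt_card_of_maps_to (f := f) hfX hcard
  obtain ⟨F, hFs, hFc⟩ := Finset.exists_subset_card_eq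
    (s := ((E \ X) \ U).filter (fun x => f x = z)) (n := 3) hfib
  have hFU : Disjoint F U := by
    rw [Finset.disjoint_left]
    intro x hx
    exact (Finset.mem_sdiff.1 (Finset.mem_filter.1 (hFs hx)).1).2
  have hFX : Disjoint F X := by
    rw [Finset.disjoint_left]
    intro x hx
    exact (Finset.mem_sdiff.1 (Finset.mem_sdiff.1 (Finset.mem_filter.1 (hFs hx)).1).1).2
  obtain ⟨e, he⟩ : F.Nonempty := by rw [← Finset.card_pos]; omega
  have heF := Finset.mem_filter.1 (hFs he)
  have hce := hf e heF.1
  rw [heF.2] at hce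
  have heU : e ∉ U := Finset.disjoint_left.1 hFU he
  have heX : e ∉ X := Finset.disjoint_left.1 hFX he
  refine ⟨insert e U, z, hz, F ∪ U, ?_, ?_, hce, ?_, ?_, ?_⟩
  · rw [Finset.disjoint_insert_left]; exact ⟨heX, hUX⟩
  · rw [Finset.card_insert_of_notMem heU]; omega
  · rw [Finset.disjoint_union_left]; exact ⟨hFX, hUX⟩
  · rw [Finset.card_union_of_disjoint hFU]; omega
  · set H := M.closure ((insert e U ∪ X.erase z : Finset α) : Set α) with hH
    have hCH : ((insert e U ∪ X.erase z : Finset α) : Set α) ⊆ H :=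
      M.subset_closure _ hce.subset_ground
    intro x hx
    simp only [Finset.coe_union, Set.mem_union, Finset.mem_coe] at hx
    rcases hx with hx | hx
    · have hxF := Finset.mem_filter.1 (hFs hx)
      have hcx := hf x hxF.1
      rw [hxF.2] at hcx
      have h3 := hcx.mem_closure_sdiff_singleton_of_mem (e := x) (by simp)
      refine (M.closure_subset_closure ?_).trans (by rw [hH, closure_closure]) h3
      intro t ht
      simp only [Finset.coe_union, Finset.coe_insert, Set.mem_sdiff, Set.mem_union,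
        Set.mem_insert_iff, Finset.mem_coe, Set.mem_singleton_iff] at ht
      rcases ht with ⟨(ht | ht) | ht, htx⟩
      · exact absurd ht htx
      · apply hCH; simp [ht]
      · apply hCH
        simp only [Finset.coe_union, Set.mem_union, Finset.mem_coe]
        exact Or.inr ht
    · apply hCH; simp [hx]

omit [DecidableEq α] in
lemma cocircuit_of (hr : M.eRank = r) {S : Finset α} (hS : M.Indep (S : Set α))
    (hc : S.card + 1 = r) : M.IsCocircuit (M.E \ M.closure (S : Set α)) := by
  obtain ⟨B, hB, hSB⟩ := hS.exists_isBase_superset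
  have hBc : B.encard = (r : ℕ∞) := by rw [hB.encard_eq_eRank, hr]
  have hlt : (S : Set α).encard < B.encard := by
    rw [hBc, Set.encard_coe_eq_coe_finsetCard]
    exact_mod_cast (by omega : S.card < r)
  have hss : (S : Set α) ⊂ B := by
    refine ⟨hSB, fun h => ?_⟩
    exact absurd (Set.encard_le_encard h) (not_le.2 hlt)
  obtain ⟨e, heB, heS⟩ := Set.exists_of_ssubset hss
  have hBe : B \ {e} = (S : Set α) := by
    have hsub : (S : Set α) ⊆ B \ {e} := fun x hx => ⟨hSB hx, fun h => heS (h ▸ hx)⟩
    symm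
    refine S.finite_toSet.eq_of_subset_of_encard_le hsub ?_
    have h1 : (B \ {e}).encard + 1 = B.encard := Set.encard_sdiff_singleton_add_one heB
    rw [hBc, ← hc] at h1
    push_cast at h1
    rw [Set.encard_coe_eq_coe_finsetCard]
    exact le_of_eq ((ENat.add_left_injective_of_ne_top (by simp)) h1)
  have := hB.compl_closure_sdiff_singleton_isCocircuit heB
  rwa [hBe] at this

/-- The rank-four case. -/
lemma rank_four (hpav : IsPaving M) (hr : M.eRank = r) (hr4 : r = 4) (hXE : (X : Set α) ⊆ M.E)
    (hX4 : X.card = 4) (hXc : ∀ C, M.IsCircuit C → ¬ (X : Set α) ⊆ C)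
    (hcol : ∀ e, ¬ M.IsColoop e)
    {W : Finset α} (hWX : Disjoint W X) (hWc : W.card + 3 = r)
    {z : α} (hz : z ∈ X) (h : M.IsCircuit ((W ∪ X.erase z : Finset α) : Set α))
    {B : Finset α} (hBX : Disjoint B X) (hBc : B.card + 1 = r)
    (hBH : (B : Set α) ⊆ M.closure ((W ∪ X.erase z : Finset α) : Set α)) :
    ∃ K, (X : Set α) ⊆ K ∧ M.IsCocircuit K := by
  obtain ⟨y, hyE, hyX, hyH⟩ := exists_y hpav hr hXE hX4 hXc (by omega) hWX hWc hz h (hcol z)
  set H := M.closure ((W ∪ X.erase z : Finset α) : Set α) with hH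
  have hHcl : M.closure H = H := by rw [hH, closure_closure]
  have hHE : H ⊆ M.E := M.closure_subset_ground _
  have hCH : ((W ∪ X.erase z : Finset α) : Set α) ⊆ H := M.subset_closure _ h.subset_ground
  have hXH : ((X.erase z : Finset α) : Set α) ⊆ H := by
    refine Set.Subset.trans ?_ hCH
    rw [Finset.coe_union]; exact Set.subset_union_right
  obtain ⟨u, v, w, huv, huw, hvw, hBeq⟩ := Finset.card_eq_three.1 (by omega : B.card = 3)
  have huB : u ∈ B := by simp [hBeq]
  have hvB : v ∈ B := by simp [hBeq]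
  have hwB : w ∈ B := by simp [hBeq]
  have hnotX : ∀ b ∈ B, b ∉ X := fun b hb => Finset.disjoint_left.1 hBX hb
  have hBH' : ∀ b ∈ B, b ∈ H := fun b hb => hBH (by exact_mod_cast hb)
  have hyb : ∀ b ∈ B, y ≠ b := fun b hb hh => hyH (hh ▸ hBH' b hb)
  -- the crucial statement
  have key : ∀ a ∈ B, ∀ b ∈ B, a ≠ b → ∀ x ∈ X, x ∈ M.closure (({y, a, b} : Finset α) : Set α) →
      x = z := by
    intro a ha b hb hab x hx hxcl
    by_contra hxz
    have hxH : x ∈ H := hXH (by simp [hxz, hx])
    have hax : a ≠ x := fun hh => hnotX a ha (hh ▸ hx)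
    have hbx : b ≠ x := fun hh => hnotX b hb (hh ▸ hx)
    have hyabE : (({y, a, b} : Finset α) : Set α) ⊆ M.E := by
      intro t ht
      simp only [Finset.coe_insert, Finset.coe_singleton, Set.mem_insert_iff,
        Set.mem_singleton_iff] at ht
      rcases ht with rfl | rfl | rfl
      · exact hyE
      · exact hHE (hBH' _ ha)
      · exact hHE (hBH' _ hb)
    have hsubcl := M.subset_closure _ hyabE
    have hc3 : ({a, b, x} : Finset α).card = 3 := by
      rw [Finset.card_eq_three]; exact ⟨a, b, x, hab, hax, hbx, rfl⟩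
    have hc3' : ({y, a, b} : Finset α).card ≤ 3 := Finset.card_le_three
    have habxH : (({a, b, x} : Finset α) : Set α) ⊆ H := by
      intro t ht
      simp only [Finset.coe_insert, Finset.coe_singleton, Set.mem_insert_iff,
        Set.mem_singleton_iff] at ht
      rcases ht with rfl | rfl | rfl
      · exact hBH' _ ha
      · exact hBH' _ hb
      · exact hxH
    have habxcl : (({a, b, x} : Finset α) : Set α) ⊆
        M.closure (({y, a, b} : Finset α) : Set α) := by
      intro t ht
      simp only [Finset.coe_insert, Finset.coe_singleton, Set.mem_insert_iff,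
        Set.mem_singleton_iff] at ht
      rcases ht with rfl | rfl | rfl
      · exact hsubcl (by simp)
      · exact hsubcl (by simp)
      · exact hxcl
    have hind : M.Indep (({a, b, x} : Finset α) : Set α) :=
      small_indep hpav hr (habxH.trans hHE) (by omega)
    have he := closure_eq_of habxcl hind (by omega)
    apply hyH
    have h1 : y ∈ M.closure (({y, a, b} : Finset α) : Set α) := hsubcl (by simp)
    rw [← he] at h1
    have := M.closure_subset_closure habxH h1
    rwa [hHcl] at this
  -- cocircuit if the plane avoids `X`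
  have fin : ∀ a ∈ B, ∀ b ∈ B, a ≠ b →
      z ∉ M.closure (({y, a, b} : Finset α) : Set α) → ∃ K, (X : Set α) ⊆ K ∧ M.IsCocircuit K := by
    intro a ha b hb hab hzn
    have hyabE : (({y, a, b} : Finset α) : Set α) ⊆ M.E := by
      intro t ht
      simp only [Finset.coe_insert, Finset.coe_singleton, Set.mem_insert_iff,
        Set.mem_singleton_iff] at ht
      rcases ht with rfl | rfl | rfl
      · exact hyE
      · exact hHE (hBH' _ ha)
      · exact hHE (hBH' _ hb)
    have hc3 : ({y, a, b} : Finset α).card = 3 := by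
      rw [Finset.card_eq_three]; exact ⟨y, a, b, hyb a ha, hyb b hb, hab, rfl⟩
    have hind : M.Indep (({y, a, b} : Finset α) : Set α) :=
      small_indep hpav hr hyabE (by omega)
    refine ⟨M.E \ M.closure (({y, a, b} : Finset α) : Set α), ?_, cocircuit_of hr hind (by omega)⟩
    intro x hx
    refine ⟨hXE hx, fun hxcl => hzn ?_⟩
    rw [← key a ha b hb hab x (by exact_mod_cast hx) hxcl]; exact hxcl
  by_cases h1 : z ∈ M.closure (({y, u, v} : Finset α) : Set α)
  swap
  · exact fin u huB v hvB huv h1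
  by_cases h2 : z ∈ M.closure (({y, u, w} : Finset α) : Set α)
  swap
  · exact fin u huB w hwB huw h2
  exfalso
  have hzE : z ∈ M.E := hXE (by exact_mod_cast hz)
  have hyz : y ≠ z := fun hh => hyX (hh ▸ hz)
  have huz : u ≠ z := fun hh => hnotX u huB (hh ▸ hz)
  have hE3 : ∀ b ∈ B, (({y, u, b} : Finset α) : Set α) ⊆ M.E := by
    intro b hb t ht
    simp only [Finset.coe_insert, Finset.coe_singleton, Set.mem_insert_iff,
      Set.mem_singleton_iff] at ht
    rcases ht with rfl | rfl | rfl
    · exact hyE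
    · exact hHE (hBH' _ huB)
    · exact hHE (hBH' _ hb)
  have hcz : ({y, u, z} : Finset α).card = 3 := by
    rw [Finset.card_eq_three]; exact ⟨y, u, z, hyb u huB, hyz, huz, rfl⟩
  have hindz : M.Indep (({y, u, z} : Finset α) : Set α) := by
    refine small_indep hpav hr ?_ (by omega)
    intro t ht
    simp only [Finset.coe_insert, Finset.coe_singleton, Set.mem_insert_iff,
      Set.mem_singleton_iff] at ht
    rcases ht with rfl | rfl | rfl
    · exact hyE
    · exact hHE (hBH' _ huB)
    · exact hzE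
  have eqz : ∀ b ∈ B, z ∈ M.closure (({y, u, b} : Finset α) : Set α) →
      M.closure (({y, u, z} : Finset α) : Set α) = M.closure (({y, u, b} : Finset α) : Set α) := by
    intro b hb hzb
    have hsubcl := M.subset_closure _ (hE3 b hb)
    refine closure_eq_of ?_ hindz (by rw [hcz]; exact Finset.card_le_three)
    intro t ht
    simp only [Finset.coe_insert, Finset.coe_singleton, Set.mem_insert_iff,
      Set.mem_singleton_iff] at ht
    rcases ht with rfl | rfl | rfl
    · exact hsubcl (by simp)
    · exact hsubcl (by simp)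
    · exact hzb
  have e1 := eqz v hvB h1
  have e2 := eqz w hwB h2
  have hw1 : w ∈ M.closure (({y, u, v} : Finset α) : Set α) := by
    rw [← e1, e2]; exact M.subset_closure _ (hE3 w hwB) (by simp)
  have hsubcl := M.subset_closure _ (hE3 v hvB)
  have hBcl : ((B : Finset α) : Set α) ⊆ M.closure (({y, u, v} : Finset α) : Set α) := by
    intro t ht
    simp only [hBeq, Finset.coe_insert, Finset.coe_singleton, Set.mem_insert_iff,
      Set.mem_singleton_iff] at ht
    rcases ht with rfl | rfl | rfl
    · exact hsubcl (by simp)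
    · exact hsubcl (by simp)
    · exact hw1
  have hBind : M.Indep ((B : Finset α) : Set α) :=
    small_indep hpav hr (hBH.trans hHE) (by omega)
  have hc3' : ({y, u, v} : Finset α).card ≤ 3 := Finset.card_le_three
  have he := closure_eq_of hBcl hBind (by omega)
  apply hyH
  have h3 : y ∈ M.closure (({y, u, v} : Finset α) : Set α) := hsubcl (by simp)
  rw [← he] at h3
  have := M.closure_subset_closure hBH h3
  rwa [hHcl] at this

end main

lemma star_dual (M : Matroid α) : Star M✶ ↔ Star M := by
  unfold Star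
  simp only [dual_isCocircuit_iff, dual_ground]
  constructor
  · intro h X hX hX4
    obtain ⟨C, hC, h1 | h1⟩ := h X hX hX4
    · exact ⟨C, hC, Or.inr h1⟩
    · exact ⟨C, hC, Or.inl h1⟩
  · intro h X hX hX4
    obtain ⟨C, hC, h1 | h1⟩ := h X hX hX4
    · exact ⟨C, hC, Or.inr h1⟩
    · exact ⟨C, hC, Or.inl h1⟩

/-- Necessity: a matroid of rank at least four with property (⋆) has no coloop. -/
lemma not_isColoop_of_star {M : Matroid α} [M.Finite] (h4 : 4 ≤ M.eRank) (hs : Star M) (e : α) :
    ¬ M.IsColoop e := by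
  classical
  intro he
  have heE := he.mem_ground
  have hEc : 4 ≤ M.E.encard := h4.trans (by
    obtain ⟨B, hB⟩ := M.exists_isBase
    rw [← hB.encard_eq_eRank]; exact Set.encard_le_encard hB.subset_ground)
  have hfin := M.ground_finite
  obtain ⟨X, heX, hXE, hXc⟩ : ∃ X : Set α, {e} ⊆ X ∧ X ⊆ M.E ∧ X.encard = 4 :=
    Set.exists_superset_subset_encard_eq (by simpa using heE) (by simp) hEc
  have heX' : e ∈ X := heX rfl
  have hXn : X.ncard = 4 := by
    rw [Set.ncard_def, hXc]; rfl
  obtain ⟨C, hXC, hC | hC⟩ := hs X hXE hXn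
  · exact he.notMem_isCircuit hC (hXC heX')
  · have h1 : M.IsCocircuit {e} := he.isCocircuit
    have h2 : ({e} : Set α) = C :=
      (IsCircuit.eq_of_subset_isCircuit (M := M✶) h1 hC (by simpa using hXC heX'))
    rw [← h2] at hXC
    have h3 := Set.encard_le_encard hXC
    rw [hXc, Set.encard_singleton] at h3
    exact absurd h3 (by decide)

/-- Sufficiency. -/
lemma star_of_paving {M : Matroid α} [M.Finite] (hM : IsPaving M) (h4 : 4 ≤ M.eRank)
    (hsize : 7 ≤ M.eRank ∨ M.eRank + 9 ≤ M.E.encard) (hcol : ∀ e, ¬ M.IsColoop e) : Star M := by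
  classical
  intro X0 hX0E hX04
  have hfin := M.ground_finite
  obtain ⟨X, rfl⟩ : ∃ X : Finset α, (X : Set α) = X0 :=
    ⟨(hfin.subset hX0E).toFinset, by simp⟩
  obtain ⟨E, hE⟩ : ∃ E : Finset α, (E : Set α) = M.E := ⟨hfin.toFinset, by simp⟩
  have hX4 : X.card = 4 := by rwa [Set.ncard_coe_finset] at hX04
  have hrE : M.eRank ≤ M.E.encard := by
    obtain ⟨B, hB⟩ := M.exists_isBase
    rw [← hB.encard_eq_eRank]; exact Set.encard_le_encard hB.subset_ground
  have hEenc : M.E.encard = E.card := by rw [← hE, Set.encard_coe_eq_coe_finsetCard]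
  obtain ⟨r, hr⟩ : ∃ r : ℕ, M.eRank = r := by
    rw [hEenc] at hrE
    exact ⟨_, (ENat.natCast_toNat (ne_top_of_le_ne_top (by simp) hrE)).symm⟩
  have hr4 : 4 ≤ r := by rw [hr] at h4; exact_mod_cast h4
  by_contra hcon
  push Not at hcon
  have hXc : ∀ C, M.IsCircuit C → ¬ (X : Set α) ⊆ C := fun C hC h => (hcon C h).1 hC
  have hXcc : ∀ C, M.IsCocircuit C → ¬ (X : Set α) ⊆ C := fun C hC h => (hcon C h).2 hC
  have hXE' : X ⊆ E := by
    rw [← hE] at hX0E; exact_mod_cast hX0E
  by_cases hn : r + 9 ≤ E.card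
  · obtain ⟨W, z, hz, B, hWX, hWc, hcirc, hBX, hBc, hBH⟩ :=
      exists_big_block hM hr hX0E hX4 hXc hr4 hE hn
    rcases Nat.lt_or_ge 4 r with h5 | h5
    · exact block_bound hM hr hX0E hX4 hXc (by omega) hcol hWX hWc hz hcirc hBX (by omega) hBH
    · obtain ⟨K, hXK, hK⟩ := rank_four hM hr (by omega) hX0E hX4 hXc hcol hWX hWc hz hcirc
        hBX hBc hBH
      exact hXcc K hK hXK
  · have hr7 : 7 ≤ r := by
      rcases hsize with h | h
      · rw [hr] at h; exact_mod_cast h
      · rw [hr, hEenc] at h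
        exact absurd (by exact_mod_cast h) hn
    -- |E| ≥ r + 1
    have hE1 : r + 1 ≤ E.card := by
      by_contra hlt
      have hle : E.card ≤ r := by omega
      obtain ⟨B, hB⟩ := M.exists_isBase
      have hBE : B = M.E := by
        refine hfin.eq_of_subset_of_encard_le' hB.subset_ground ?_
        rw [hB.encard_eq_eRank, hr, hEenc]; exact_mod_cast hle
      have hne : X.Nonempty := by rw [← Finset.card_pos]; omega
      obtain ⟨x, hx⟩ := hne
      apply hcol x
      rw [isColoop_iff_forall_mem_isBase]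
      intro B' hB'
      have hB'E : B' = M.E := by
        refine hfin.eq_of_subset_of_encard_le' hB'.subset_ground ?_
        rw [hB'.encard_eq_eRank, hr, hEenc]; exact_mod_cast hle
      rw [hB'E]; exact hX0E (by exact_mod_cast hx)
    have hc1 : (E \ X).card + 4 = E.card := by
      rw [Finset.card_sdiff_of_subset hXE']
      have := Finset.card_le_card hXE'
      omega
    obtain ⟨W, hWE, hWc⟩ := Finset.exists_subset_card_eq (s := E \ X) (n := r - 3) (by omega)
    have hWX : Disjoint W X := by
      rw [Finset.disjoint_left]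
      intro x hx
      exact (Finset.mem_sdiff.1 (hWE hx)).2
    have hWE' : (W : Set α) ⊆ M.E := by
      intro x hx
      rw [← hE]
      exact_mod_cast (Finset.mem_sdiff.1 (hWE (by exact_mod_cast hx))).1
    exact large_rank hM hr hX0E hX4 hXc hr7 hcol hWE' hWX (by omega)

/-- **Theorem.** Let `M` be a finite paving matroid of rank at least `4`, and suppose that its rank
is at least `7` or that it has at least `rank + 9` elements. Then every four-element subset of the
ground set lies in a circuit or a cocircuit if and only if `M` has no coloop; and the same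
holds for the dual (copaving) matroid. -/
theorem result (M : Matroid α) [M.Finite] (hM : IsPaving M) (h4 : 4 ≤ M.eRank)
    (hsize : 7 ≤ M.eRank ∨ M.eRank + 9 ≤ M.E.encard) :
    (Star M ↔ ∀ e, ¬ M.IsColoop e) ∧ (Star M✶ ↔ ∀ e, ¬ M.IsColoop e) := by
  have h : Star M ↔ ∀ e, ¬ M.IsColoop e :=
    ⟨fun hs e => not_isColoop_of_star h4 hs e, fun hcol => star_of_paving hM h4 hsize hcol⟩
  exact ⟨h, (star_dual M).trans h⟩

end Pool.Agent.Results.MP_16b4d3_co.Paving
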