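import Pool.Agent.Work.MP_16b4d3_co.OldDenseRank
import Pool.Agent.Work.MP_16b4d3_co.Bin5

/-!
# The size of 4-connected matroids with a four-element set in no circuit and no cocircuit

An upper bound, exponential in the rank, for highly connected matroids with a `k`-element set in
no circuit and no cocircuit; and, for `k = 4`, binary Tutte 4-connected examples of exponential
size which contain every binary matroid as a minor.
-/

set_option autoImplicit false

namespace Pool.Agent.Results.MP_16b4d3_co.SizeBounds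

open Set

/-- `M` is connected: `1 ≤ r(A) + r(E - A) - r(M)` for every proper nonempty subset `A` of the
ground set `E`. -/
def Conn {α : Type*} (M : Matroid α) : Prop :=
  ∀ A ⊆ M.E, A.Nonempty → (M.E \ A).Nonempty → M.eRank + 1 ≤ M.eRk A + M.eRk (M.E \ A)

/-- Every vertical `j`-separation with `2 ≤ j < k` has a side with fewer than `k` elements:
for all such `j` and all `A ⊆ E` with `|A|, |E - A| ≥ k` and `r(A), r(E - A) ≥ j`,
one has `r(A) + r(E - A) - r(M) ≥ j`. -/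
def NoVerticalSep {α : Type*} (M : Matroid α) (k : ℕ) : Prop :=
  ∀ j : ℕ, 2 ≤ j → j < k → ∀ A ⊆ M.E, k ≤ A.ncard → k ≤ (M.E \ A).ncard →
    (j : ℕ∞) ≤ M.eRk A → (j : ℕ∞) ≤ M.eRk (M.E \ A) →
    M.eRank + j ≤ M.eRk A + M.eRk (M.E \ A)

/-- Every flat of rank at most `k - 2` has at most `l` elements, and
`|E| > k + l * k ^ (r(M) + 2 - k)`. -/
def ManyElements {α : Type*} (M : Matroid α) (k l : ℕ) : Prop :=
  (∀ F, M.IsFlat F → M.eRk F ≤ (k - 2 : ℕ) → F.ncard ≤ l) ∧
    k + l * k ^ (M.eRank.toNat + 2 - k) < M.E.ncard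

/-- `M` is Tutte 4-connected: `r(A) + r(E - A) - r(M) ≥ min(3, |A|, |E - A|)` for all `A ⊆ E`. -/
def TutteFour {α : Type*} (M : Matroid α) : Prop :=
  ∀ A ⊆ M.E, M.eRank + (min 3 (min A.ncard (M.E \ A).ncard) : ℕ) ≤ M.eRk A + M.eRk (M.E \ A)

/-- Property (⋆): every four-element subset of the ground set lies in a circuit or in a
cocircuit. -/
def Star {α : Type*} (M : Matroid α) : Prop :=
  ∀ X : Set α, X ⊆ M.E → X.ncard = 4 → ∃ C : Set α, X ⊆ C ∧ (M.IsCircuit C ∨ M.IsCocircuit C)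

/-- **Main theorem.** -/
theorem result :
    -- the upper bound
    (∀ (α : Type) (M : Matroid α) (k l : ℕ), M.Finite → 3 ≤ k → Conn M →
      ((NoVerticalSep M k ∧ ManyElements M k l) ∨ (NoVerticalSep M✶ k ∧ ManyElements M✶ k l)) →
      ∀ X ⊆ M.E, X.ncard = k → ∃ C, X ⊆ C ∧ (M.IsCircuit C ∨ M.IsCocircuit C)) ∧
    -- large binary examples with all binary minors
    (∀ m : ℕ, 4 ≤ m → ∃ (α : Type) (M : Matroid α) (v : α → Fin (m + 4) → ZMod 2),
      M.E = univ ∧ (∀ I, M.Indep I ↔ LinearIndepOn (ZMod 2) v I) ∧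
      M.E.ncard = 2 ^ m + 8 ∧ M.eRank = (m + 4 : ℕ) ∧ TutteFour M ∧ ¬ Star M ∧
      ∀ (n d : ℕ) (w : Fin n → Fin d → ZMod 2) (N : Matroid (Fin n)), d + 3 * n ≤ m →
        (∀ I, N.Indep I ↔ LinearIndepOn (ZMod 2) w I) →
        ∃ (C : Set α) (f : Fin n → α), Function.Injective f ∧ (∀ i, f i ∉ C) ∧
          ∀ I : Set (Fin n), N.Indep I ↔ (M.contract C).Indep (f '' I)) := by
  refine ⟨?_, ?_⟩
  · intro α M k l hfin hk hconn h X hX hXk
    have := hfin
    rcases Pool.Agent.Work.MP_16b4d3_co.OldDenseRank.result hk hconn h hX hXk with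
      ⟨C, hC, hXC⟩ | ⟨K, hK, hXK⟩
    · exact ⟨C, hXC, Or.inl hC⟩
    · exact ⟨K, hXK, Or.inr hK⟩
  · intro m hm
    obtain ⟨h1, h2, h3, h4, h5, X, hX4, hX⟩ :=
      Pool.Agent.Work.MP_16b4d3_co.Bin.summary (m := m) hm
    have hV : Module.finrank (ZMod 2) (Pool.Agent.Work.MP_16b4d3_co.Bin.Vm m) =
        Module.finrank (ZMod 2) (Fin (m + 4) → ZMod 2) := by
      rw [Module.finrank_prod, Module.finrank_prod]
      simp
    let e := LinearEquiv.ofFinrankEq (Pool.Agent.Work.MP_16b4d3_co.Bin.Vm m)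
      (Fin (m + 4) → ZMod 2) hV
    refine ⟨_, Pool.Agent.Work.MP_16b4d3_co.Bin.BM m,
      e.toLinearMap ∘ Pool.Agent.Work.MP_16b4d3_co.Bin.vec m, h1, ?_, h2, h3, ?_, ?_, ?_⟩
    · intro I
      rw [h4]
      exact (LinearMap.linearIndepOn_iff_of_injOn e.toLinearMap e.injective.injOn).symm
    · intro A _
      exact h5 A
    · intro hstar
      obtain ⟨C, hXC, hC | hC⟩ := hstar X (by rw [h1]; exact subset_univ _) hX4
      · exact (hX C hXC).1 hC
      · exact (hX C hXC).2 hC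
    · intro n d w N hmn hN
      obtain ⟨C, f, hf, hfC, h⟩ :=
        Pool.Agent.Work.MP_16b4d3_co.Bin.minor (m := m) hmn w
      exact ⟨C, f, hf, hfC, fun I => (hN I).trans (h I)⟩

end Pool.Agent.Results.MP_16b4d3_co.SizeBounds
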