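import Pool.Agent.Work.MP_16b4d3_co.Spike5

/-!
Property (⋆) for tipless spikes, and certificates for the property and for its failure.
-/

set_option autoImplicit false

namespace Pool.Agent.Results.MP_16b4d3_co.SpikeCertificates

open Set Function Pool.Agent.Work.MP_16b4d3_co

/-- Property (⋆): every four-element subset of the ground set lies in a circuit or in a
cocircuit. -/
def Star {α : Type*} (M : Matroid α) : Prop :=
  ∀ X : Set α, X ⊆ M.E → X.ncard = 4 → ∃ C : Set α, X ⊆ C ∧ (M.IsCircuit C ∨ M.IsCocircuit C)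

/-- `B` is the graph of some `v` outside `T`, or is obtained from the graph of some `v` by
deleting its element in leg `m` and adding the other element of another leg `i`. -/
def SpikeBase {r : ℕ} (T : Set (Fin r → Bool)) (B : Set (Fin r × Bool)) : Prop :=
  (∃ v : Fin r → Bool, v ∉ T ∧ B = {e | e.2 = v e.1}) ∨
    (∃ (i m : Fin r) (v : Fin r → Bool), i ≠ m ∧ B = {e | e.1 = i ∨ (e.1 ≠ m ∧ e.2 = v e.1)})

/-- Every matroid on the ground set of `M` in which the same members of `Q` are independent as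
in `M` has property `P`. -/
def Certificate {α : Type*} (M : Matroid α) (P : Matroid α → Prop) (Q : Set (Set α)) : Prop :=
  ∀ M' : Matroid α, M'.E = M.E → (∀ A ∈ Q, (M'.Indep A ↔ M.Indep A)) → P M'

theorem result :
    -- which tipless spikes of rank at least five have the property
    (∀ (r : ℕ), 5 ≤ r → ∀ T : Set (Fin r → Bool), (∀ v ∈ T, ∀ i, update v i (!v i) ∉ T) →
      (∃ M : Matroid (Fin r × Bool), M.E = univ ∧ ∀ B, M.IsBase B ↔ SpikeBase T B) ∧
      ∀ M : Matroid (Fin r × Bool), M.E = univ → (∀ B, M.IsBase B ↔ SpikeBase T B) →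
        (¬ Star M ↔ ∃ j k : Fin r, j ≠ k ∧ ∃ w w' : Fin r → Bool, w' j ≠ w j ∧ w' k ≠ w k ∧
          ∀ v : Fin r → Bool,
            (v j = w j ∧ v k = w k ∧ Even (hammingDist v w)) ∨
              (v j = w' j ∧ v k = w' k ∧ Even (hammingDist v w')) → v ∈ T)) ∧
    -- the property has short certificates
    (∀ (n : ℕ) (M : Matroid (Fin n)), M.E = univ → Star M →
      ∃ Q : Set (Set (Fin n)), Q.ncard ≤ n ^ 5 ∧ Certificate M Star Q) ∧
    -- its failure does not
    (∀ (r : ℕ), 5 ≤ r → ∀ p q : Fin r, p ≠ q → ∃ M : Matroid (Fin r × Bool), M.E = univ ∧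
      (∀ B, M.IsBase B ↔
        SpikeBase {v | Even (hammingDist v (fun _ => false)) ∧ v p = v q} B) ∧
      ¬ Star M ∧
      ∀ Q : Set (Set (Fin r × Bool)), Certificate M (fun M' => ¬ Star M') Q →
        2 ^ (r - 2) ≤ Q.ncard) := by
  refine ⟨?_, ?_, ?_⟩
  · intro r hr T hT
    refine ⟨?_, ?_⟩
    · exact Spike.exists_spike (ι := Fin r) hT ⟨⟨0, by omega⟩, ⟨1, by omega⟩, by simp⟩
    · intro M hE hM
      have h1 := Spike.criterion (ι := Fin r) (M := M) (T := T) (by simpa using hr) hE hM hT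
      have h2 : Star M ↔ Spike.Star M := Iff.rfl
      rw [h2, h1]
      have hb : ∀ x y : Bool, y = (!x) ↔ y ≠ x := by decide
      constructor
      · rintro ⟨j, k, hjk, w, w', h3, h4, h5, h6⟩
        refine ⟨j, k, hjk, w, w', (hb _ _).1 h3, (hb _ _).1 h4, ?_⟩
        rintro v (⟨h7, h8, h9⟩ | ⟨h7, h8, h9⟩)
        · exact h5 v h7 h8 h9
        · exact h6 v h7 h8 h9
      · rintro ⟨j, k, hjk, w, w', h3, h4, h5⟩
        exact ⟨j, k, hjk, w, w', (hb _ _).2 h3, (hb _ _).2 h4,
          fun v h7 h8 h9 => h5 v (Or.inl ⟨h7, h8, h9⟩),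
          fun v h7 h8 h9 => h5 v (Or.inr ⟨h7, h8, h9⟩)⟩
  · intro n M hE hM
    obtain ⟨Q, hQ, h⟩ := Spike.upper hE hM
    refine ⟨Q, by simpa using hQ, fun M' hE' h' => h M' (by rw [hE', hE]) h'⟩
  · intro r hr p q hpq
    obtain ⟨M, hE, hM⟩ := Spike.exists_spike (Spike.T0_sep p q) ⟨p, q, hpq⟩
    obtain ⟨h1, h2⟩ := Spike.lower (by simpa using hr) hpq hE hM
    refine ⟨M, hE, hM, h1, fun Q hQ => ?_⟩
    have := h2 Q (fun M' hE' h' => hQ M' (by rw [hE', hE]) h')
    simpa using this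

end Pool.Agent.Results.MP_16b4d3_co.SpikeCertificates
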