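import Pool.Agent.Work.MP_16b4d3_co.Density

/-!
# Four-element (more generally `k`-element) sets in circuits or cocircuits: matroids with a
minor that is not a union of few flats

Let `k ≥ 3` and let `M` be a finite connected matroid such that every vertical `j`-separation
of `M` with `2 ≤ j < k` has a side with fewer than `k` elements.  If `M` has a minor `N` of rank
at least `k - 1` whose ground set is not a union of `thickness k` proper flats of `N`, then
every `k`-element set of elements of `M` is contained in a circuit or in a cocircuit of `M`.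
The same holds if these conditions are satisfied by the dual `M✶`.  For `k = 4` the conclusion
is property (⋆).
-/

set_option autoImplicit false

namespace Pool.Agent.Results.MP_16b4d3_co.ThickMinor

open Set Matroid

variable {α : Type*}

/-- `M` is connected: `1 ≤ r(A) + r(E - A) - r(M)` for every proper nonempty subset `A` of the
ground set `E`. -/
def Conn (M : Matroid α) : Prop :=
  ∀ A ⊆ M.E, A.Nonempty → (M.E \ A).Nonempty → M.eRank + 1 ≤ M.eRk A + M.eRk (M.E \ A)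

/-- Every vertical `j`-separation with `2 ≤ j < k` has a side with fewer than `k` elements:
for all such `j` and all `A ⊆ E` with `|A|, |E - A| ≥ k` and `r(A), r(E - A) ≥ j`,
one has `r(A) + r(E - A) - r(M) ≥ j`. -/
def NoVerticalSep (M : Matroid α) (k : ℕ) : Prop :=
  ∀ j : ℕ, 2 ≤ j → j < k → ∀ A ⊆ M.E, k ≤ A.ncard → k ≤ (M.E \ A).ncard →
    (j : ℕ∞) ≤ M.eRk A → (j : ℕ∞) ≤ M.eRk (M.E \ A) →
    M.eRank + j ≤ M.eRk A + M.eRk (M.E \ A)

/-- `M` has a minor of rank at least `r` whose ground set is not a union of `D` proper flats. -/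
def HasThickMinor (M : Matroid α) (D r : ℕ) : Prop :=
  ∃ N : Matroid α, N ≤m M ∧ (r : ℕ∞) ≤ N.eRank ∧
    ∀ F : Fin D → Set α, (∀ i, N.IsFlat (F i) ∧ F i ≠ N.E) → (⋃ i, F i) ≠ N.E

/-- The number of proper flats. -/
def thickness (k : ℕ) : ℕ := (k ^ (2 ^ (2 * k - 1)) + (2 * k + 1)) ^ (2 ^ k)

lemma vconn_of {M : Matroid α} [M.Finite] {k : ℕ}
    (h1 : ∀ A ⊆ M.E, A.Nonempty → (M.E \ A).Nonempty →
      Pool.MP16b4d3.rk M M.E + 1 ≤ Pool.MP16b4d3.rk M A + Pool.MP16b4d3.rk M (M.E \ A))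
    (h2 : NoVerticalSep M k) : Pool.MP16b4d3.VConn M k := by
  refine ⟨h1, ?_⟩
  intro j hj hjk A hA hr hr' hc hc'
  have h := h2 j hj hjk A hA hc hc' (by rw [← Pool.MP16b4d3.coe_rk]; exact_mod_cast hr)
    (by rw [← Pool.MP16b4d3.coe_rk]; exact_mod_cast hr')
  rw [← eRk_ground, ← Pool.MP16b4d3.coe_rk, ← Pool.MP16b4d3.coe_rk,
    ← Pool.MP16b4d3.coe_rk] at h
  exact_mod_cast h

lemma conn_rk {M : Matroid α} [M.Finite] (h : Conn M) :
    ∀ A ⊆ M.E, A.Nonempty → (M.E \ A).Nonempty →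
      Pool.MP16b4d3.rk M M.E + 1 ≤ Pool.MP16b4d3.rk M A + Pool.MP16b4d3.rk M (M.E \ A) := by
  intro A hA hn hn'
  have h := h A hA hn hn'
  rw [← eRk_ground, ← Pool.MP16b4d3.coe_rk, ← Pool.MP16b4d3.coe_rk,
    ← Pool.MP16b4d3.coe_rk] at h
  exact_mod_cast h

lemma conn_rk_dual {M : Matroid α} [M.Finite] (h : Conn M) :
    ∀ A ⊆ M✶.E, A.Nonempty → (M✶.E \ A).Nonempty →
      Pool.MP16b4d3.rk M✶ M✶.E + 1 ≤
        Pool.MP16b4d3.rk M✶ A + Pool.MP16b4d3.rk M✶ (M✶.E \ A) := by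
  intro A hA hn hn'
  rw [dual_ground] at hA hn' ⊢
  have h1 := conn_rk h A hA hn hn'
  have h2 := Pool.MP16b4d3.conn_dual (M := M) hA
  omega

lemma good_of {M : Matroid α} [M.Finite] {k : ℕ} (hk : 3 ≤ k)
    (h1 : ∀ A ⊆ M.E, A.Nonempty → (M.E \ A).Nonempty →
      Pool.MP16b4d3.rk M M.E + 1 ≤ Pool.MP16b4d3.rk M A + Pool.MP16b4d3.rk M (M.E \ A))
    (h2 : NoVerticalSep M k) (h3 : HasThickMinor M (thickness k) (k - 1))
    {X : Set α} (hX : X ⊆ M.E) (hXk : X.ncard = k) : Pool.MP16b4d3.Good M X := by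
  obtain ⟨N, hN, hr, hcov⟩ := h3
  obtain ⟨C0, hC0, Z, hZ, hth, hrk⟩ := Pool.MP16b4d3.thick_of_minor hN hr hcov
  exact Pool.MP16b4d3.thick_good hk (vconn_of h1 h2) hC0 hZ hth hrk hX hXk

/-- **Main theorem.** -/
theorem result {k : ℕ} (hk : 3 ≤ k) {M : Matroid α} [M.Finite] (hconn : Conn M)
    (h : (NoVerticalSep M k ∧ HasThickMinor M (thickness k) (k - 1)) ∨
      (NoVerticalSep M✶ k ∧ HasThickMinor M✶ (thickness k) (k - 1)))
    {X : Set α} (hX : X ⊆ M.E) (hXk : X.ncard = k) :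
    (∃ C, M.IsCircuit C ∧ X ⊆ C) ∨ (∃ K, M.IsCocircuit K ∧ X ⊆ K) := by
  rcases h with ⟨h1, h2⟩ | ⟨h1, h2⟩
  · exact good_of hk (conn_rk hconn) h1 h2 hX hXk
  · rcases good_of hk (conn_rk_dual hconn) h1 h2 hX hXk with ⟨C, hC, hXC⟩ | ⟨K, hK, hXK⟩
    · exact Or.inr ⟨C, hC, hXC⟩
    · exact Or.inl ⟨K, dual_isCocircuit_iff.1 hK, hXK⟩

end Pool.Agent.Results.MP_16b4d3_co.ThickMinor
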